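import Pool.Agent.K4H59.TL.Spec

open Set

namespace Pool.Agent.K4H59.TL

open Pool.Agent.K4H72.Til (IsPolygon ShareEdge IsTiling Tile Derivable Adj HasLocEig)

variable {K : Set ℂ} {O : ℂ} {H : Finset (ℂ →L[ℝ] ℝ)} {f₀ h h' : ℂ →L[ℝ] ℝ} {j j' : ℕ}

private lemma g8_coord (φ : ℂ →L[ℝ] ℝ) (z : ℂ) : φ z = z.re * φ 1 + z.im * φ Complex.I := by
  have h1 : z = z.re • (1 : ℂ) + z.im • Complex.I := by
    apply Complex.ext <;> simp
  conv_lhs => rw [h1]
  rw [map_add, map_smul, map_smul, smul_eq_mul, smul_eq_mul]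

private lemma g8_ker (hf : f₀ ≠ 0) {d z : ℂ} (hd0 : d ≠ 0) (hd : f₀ d = 0) (hz : f₀ z = 0) :
    ∃ s : ℝ, z = s • d := by
  have hab : f₀ 1 ≠ 0 ∨ f₀ Complex.I ≠ 0 := by
    by_contra hc
    push Not at hc
    apply hf
    refine ContinuousLinearMap.ext fun z => ?_
    rw [g8_coord f₀ z, hc.1, hc.2]
    simp
  rw [g8_coord] at hd hz
  have hcross : z.re * d.im = z.im * d.re := by
    rcases hab with ha | ha
    · have : f₀ 1 * (z.re * d.im - z.im * d.re) = 0 := by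
        linear_combination d.im * hz - z.im * hd
      rcases mul_eq_zero.mp this with h1 | h1
      · exact absurd h1 ha
      · linarith
    · have : f₀ Complex.I * (z.re * d.im - z.im * d.re) = 0 := by
        linear_combination z.re * hd - d.re * hz
      rcases mul_eq_zero.mp this with h1 | h1
      · exact absurd h1 ha
      · linarith
  have hn : d.re * d.re + d.im * d.im ≠ 0 := by
    intro h0
    apply hd0
    have h1 : d.re = 0 := by nlinarith [mul_self_nonneg d.re, mul_self_nonneg d.im]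
    have h2 : d.im = 0 := by nlinarith [mul_self_nonneg d.re, mul_self_nonneg d.im]
    exact Complex.ext h1 h2
  refine ⟨(z.re * d.re + z.im * d.im) / (d.re * d.re + d.im * d.im), ?_⟩
  apply Complex.ext
  · rw [Complex.smul_re, smul_eq_mul, div_mul_eq_mul_div, eq_div_iff hn]
    linear_combination d.im * hcross
  · rw [Complex.smul_im, smul_eq_mul, div_mul_eq_mul_div, eq_div_iff hn]
    linear_combination (-d.re) * hcross

private lemma g8_num {s1 u1 σ1 σ2 τ1 τ2 : ℝ} (hs10 : s1 ≠ 0)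
    (hσ1 : 1 ≤ σ1) (hσ1' : σ1 ≤ 2) (hσ2 : 1 ≤ σ2) (hσ2' : σ2 ≤ 2)
    (hτ1 : 1 ≤ τ1) (hτ1' : τ1 ≤ 2) (hτ2 : 1 ≤ τ2) (hτ2' : τ2 ≤ 2)
    (q1 : 1 * s1 = 1 + σ1 * u1) (q2 : 2 * s1 = 1 + σ2 * u1)
    (q3 : 1 + 1 * u1 = τ1 * s1) (q4 : 1 + 2 * u1 = τ2 * s1) : s1 = 1 / 3 := by
  have r1 : s1 = (σ2 - σ1) * u1 := by linear_combination q2 - q1
  have r2 : u1 = (τ2 - τ1) * s1 := by linear_combination q4 - q3
  have r3 : ((σ2 - σ1) * (τ2 - τ1) - 1) * s1 = 0 := by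
    rw [r2] at r1
    linear_combination (-1 : ℝ) * r1
  have r4 : (σ2 - σ1) * (τ2 - τ1) = 1 := by
    rcases mul_eq_zero.mp r3 with h5 | h5
    · linarith
    · exact absurd h5 hs10
  have l1 : -1 ≤ σ2 - σ1 := by linarith
  have l2 : σ2 - σ1 ≤ 1 := by linarith
  have l3 : -1 ≤ τ2 - τ1 := by linarith
  have l4 : τ2 - τ1 ≤ 1 := by linarith
  have r5 : τ2 - τ1 = 1 ∨ τ2 - τ1 = -1 := by
    rcases le_or_gt 0 (τ2 - τ1) with h0 | h0
    · left
      have := mul_le_mul_of_nonneg_right l2 h0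
      linarith
    · right
      have := mul_le_mul_of_nonpos_right l1 h0.le
      linarith
  rcases r5 with r5 | r5
  · rw [r5, one_mul] at r2
    rw [r2] at q1 q3
    have k1 : s1 * (τ1 - 1) = 1 := by linear_combination (-1 : ℝ) * q3
    have k2 : s1 * (σ1 - 1) = -1 := by linear_combination (-1 : ℝ) * q1
    rcases lt_or_gt_of_ne hs10 with h0 | h0
    · have := mul_nonpos_of_nonpos_of_nonneg h0.le (sub_nonneg.mpr hτ1)
      linarith
    · have := mul_nonneg h0.le (sub_nonneg.mpr hσ1)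
      linarith
  · have r2' : u1 = -s1 := by rw [r2, r5]; ring
    rw [r2'] at q1 q2
    have k1 : s1 * (1 + σ1) = 1 := by linear_combination q1
    have k2 : s1 * (2 + σ2) = 1 := by linear_combination q2
    have hs1pos : 0 < s1 := by
      by_contra hc
      push Not at hc
      have := mul_nonpos_of_nonpos_of_nonneg hc (by linarith : (0 : ℝ) ≤ 1 + σ1)
      linarith
    have m1 := mul_le_mul_of_nonneg_left (by linarith : (1 : ℝ) + σ1 ≤ 3) hs1pos.le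
    have m2 := mul_le_mul_of_nonneg_left (by linarith : (3 : ℝ) ≤ 2 + σ2) hs1pos.le
    linarith

set_option maxHeartbeats 1000000 in
theorem pc_no_share {O₁ O₂ : ℂ} {H₁ H₂ : Finset (ℂ →L[ℝ] ℝ)} (hf : f₀ ≠ 0) (R1 : Rep K O₁ H₁)
    (R2 : Rep K O₂ H₂) (h12 : f₀ (O₂ - O₁) = 0) (hne : O₁ ≠ O₂) (hB1 : ∀ h ∈ H₁, h (O₂ - O₁) ≤ 1 / 2)
    (hB2 : ∃ h ∈ H₁, h (O₂ - O₁) = 1 / 2) (hA : Act H₁ f₀ h) (hA' : Act H₂ (-f₀) h') :
    ¬ Share (pc H₁ f₀ O₁ h j) (pc H₂ (-f₀) O₂ h' j') := by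
  rintro ⟨e, ⟨hnt, φ, c, hφ, hφc, he1⟩, ⟨_, φ', c', hφ', hφc', he2⟩⟩
  set d : ℂ := O₂ - O₁ with hd
  have hd0 : d ≠ 0 := sub_ne_zero.mpr hne.symm
  -- points of `e` are on the line
  have hline : ∀ x ∈ e, ∃ s : ℝ, x = O₁ + s • d := by
    intro x hx
    have hx1 : x ∈ pc H₁ f₀ O₁ h j := by rw [he1] at hx; exact hx.1
    have hx2 : x ∈ pc H₂ (-f₀) O₂ h' j' := by rw [he2] at hx; exact hx.1
    have a1 : f₀ (x - O₁) ≤ 0 := hx1.1
    have a2 : (-f₀) (x - O₂) ≤ 0 := hx2.1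
    rw [neg_apply] at a2
    have a3 : f₀ (x - O₁) = f₀ (x - O₂) + f₀ d := by
      rw [← map_add, hd]; congr 1; ring
    have a4 : f₀ (x - O₁) = 0 := by
      rw [h12] at a3
      linarith
    obtain ⟨s, hs⟩ := g8_ker hf hd0 h12 a4
    exact ⟨s, by rw [← hs]; ring⟩
  obtain ⟨p, hp, q, hq, hpq⟩ := hnt
  obtain ⟨sp, hsp⟩ := hline p hp
  obtain ⟨sq, hsq⟩ := hline q hq
  have hspq : sp ≠ sq := by
    intro h0
    apply hpq
    rw [hsp, hsq, h0]
  -- the supporting functionals are constant on the line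
  have hconst : ∀ (ψ : ℂ →L[ℝ] ℝ) (γ : ℝ), ψ p = γ → ψ q = γ → ∀ s : ℝ, ψ (O₁ + s • d) = γ := by
    intro ψ γ h1 h2 s
    rw [hsp, map_add, map_smul, smul_eq_mul] at h1
    rw [hsq, map_add, map_smul, smul_eq_mul] at h2
    have h3 : (sp - sq) * ψ d = 0 := by linear_combination h1 - h2
    have h4 : ψ d = 0 := by
      rcases mul_eq_zero.mp h3 with h5 | h5
      · exact absurd (sub_eq_zero.mp h5) hspq
      · exact h5
    rw [map_add, map_smul, smul_eq_mul, h4]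
    rw [h4] at h1
    linarith
  have hc1 : ∀ s : ℝ, φ (O₁ + s • d) = c := by
    apply hconst φ c
    · rw [he1] at hp; exact hp.2
    · rw [he1] at hq; exact hq.2
  have hc2 : ∀ s : ℝ, φ' (O₁ + s • d) = c' := by
    apply hconst φ' c'
    · rw [he2] at hp; exact hp.2
    · rw [he2] at hq; exact hq.2
  have hiff : ∀ s : ℝ, O₁ + s • d ∈ pc H₁ f₀ O₁ h j ↔ O₁ + s • d ∈ pc H₂ (-f₀) O₂ h' j' := by
    intro s
    constructor
    · intro hx
      have : O₁ + s • d ∈ e := by rw [he1]; exact ⟨hx, hc1 s⟩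
      rw [he2] at this
      exact this.1
    · intro hx
      have : O₁ + s • d ∈ e := by rw [he2]; exact ⟨hx, hc2 s⟩
      rw [he1] at this
      exact this.1
  -- the conditions on the line
  have e1 : ∀ s : ℝ, O₁ + s • d ∈ pc H₁ f₀ O₁ h j ↔
      ((∀ g ∈ H₁, s * g d ≤ s * h d) ∧ (1 / 2 : ℝ) ^ (j + 1) ≤ s * h d ∧ s * h d ≤ (1 / 2 : ℝ) ^ j) := by
    intro s
    have hx : O₁ + s • d - O₁ = s • d := by ring
    simp only [pc, mem_ofPred_eq, hx, map_smul, smul_eq_mul, h12, mul_zero, le_refl, true_and]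
  have e2 : ∀ s : ℝ, O₁ + s • d ∈ pc H₂ (-f₀) O₂ h' j' ↔
      ((∀ g ∈ H₂, (s - 1) * g d ≤ (s - 1) * h' d) ∧ (1 / 2 : ℝ) ^ (j' + 1) ≤ (s - 1) * h' d ∧
        (s - 1) * h' d ≤ (1 / 2 : ℝ) ^ j') := by
    intro s
    have hx : O₁ + s • d - O₂ = (s - 1) • d := by rw [sub_smul, one_smul, hd]; ring
    simp only [pc, mem_ofPred_eq, hx, map_smul, smul_eq_mul, neg_apply, h12,
      mul_zero, neg_zero, le_refl, true_and]
  have hm : (0 : ℝ) < (1 / 2 : ℝ) ^ (j + 1) := by positivity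
  have hm' : (0 : ℝ) < (1 / 2 : ℝ) ^ (j' + 1) := by positivity
  have hjj : (1 / 2 : ℝ) ^ j = 2 * (1 / 2 : ℝ) ^ (j + 1) := by rw [pow_succ]; ring
  have hjj' : (1 / 2 : ℝ) ^ j' = 2 * (1 / 2 : ℝ) ^ (j' + 1) := by rw [pow_succ]; ring
  set m : ℝ := (1 / 2 : ℝ) ^ (j + 1) with hmdef
  set m' : ℝ := (1 / 2 : ℝ) ^ (j' + 1) with hmdef'
  rw [hjj] at e1
  rw [hjj'] at e2
  have hP1 : O₁ + sp • d ∈ pc H₁ f₀ O₁ h j := by
    rw [← hsp]; rw [he1] at hp; exact hp.1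
  have hP2 := (hiff sp).mp hP1
  obtain ⟨b1, b2, b3⟩ := (e1 sp).mp hP1
  obtain ⟨b4, b5, b6⟩ := (e2 sp).mp hP2
  have hhd : h d ≠ 0 := by
    intro h0; rw [h0, mul_zero] at b2; linarith
  have hhd' : h' d ≠ 0 := by
    intro h0; rw [h0, mul_zero] at b5; linarith
  -- scaling
  have sc1 : ∀ t : ℝ, 1 ≤ t → t ≤ 2 → O₁ + (t * (m / h d)) • d ∈ pc H₁ f₀ O₁ h j := by
    intro t ht1 ht2
    rw [e1]
    have hk : t * (m / h d) * h d = t * m := by field_simp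
    have hpos : 0 < sp * h d := lt_of_lt_of_le hm b2
    have hkk : ∀ g ∈ H₁, t * (m / h d) * g d ≤ t * (m / h d) * h d := by
      intro g hg
      have hb := b1 g hg
      have hfac : t * (m / h d) = (t * m / (sp * h d)) * sp := by
        have hsp0 : sp ≠ 0 := by
          intro h0; rw [h0, zero_mul] at hpos; exact lt_irrefl _ hpos
        field_simp
      rw [hfac, mul_assoc, mul_assoc]
      apply mul_le_mul_of_nonneg_left hb
      have : 0 ≤ t * m := by nlinarith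
      positivity
    refine ⟨hkk, ?_, ?_⟩
    · rw [hk]; nlinarith
    · rw [hk]; nlinarith
  have sc2 : ∀ t : ℝ, 1 ≤ t → t ≤ 2 → O₁ + (1 + t * (m' / h' d)) • d ∈ pc H₂ (-f₀) O₂ h' j' := by
    intro t ht1 ht2
    rw [e2]
    have hone : (1 + t * (m' / h' d)) - 1 = t * (m' / h' d) := by ring
    rw [hone]
    have hk : t * (m' / h' d) * h' d = t * m' := by field_simp
    have hpos : 0 < (sp - 1) * h' d := lt_of_lt_of_le hm' b5
    have hkk : ∀ g ∈ H₂, t * (m' / h' d) * g d ≤ t * (m' / h' d) * h' d := by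
      intro g hg
      have hb := b4 g hg
      have hfac : t * (m' / h' d) = (t * m' / ((sp - 1) * h' d)) * (sp - 1) := by
        have hsp0 : sp - 1 ≠ 0 := by
          intro h0; rw [h0, zero_mul] at hpos; exact lt_irrefl _ hpos
        field_simp
      rw [hfac, mul_assoc, mul_assoc]
      apply mul_le_mul_of_nonneg_left hb
      have : 0 ≤ t * m' := by nlinarith
      positivity
    refine ⟨hkk, ?_, ?_⟩
    · rw [hk]; nlinarith
    · rw [hk]; nlinarith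
  -- converse: representation of the parameters
  have rp1 : ∀ s : ℝ, O₁ + s • d ∈ pc H₁ f₀ O₁ h j → ∃ t : ℝ, 1 ≤ t ∧ t ≤ 2 ∧ s = t * (m / h d) := by
    intro s hs
    obtain ⟨_, c2, c3⟩ := (e1 s).mp hs
    refine ⟨s * h d / m, ?_, ?_, ?_⟩
    · rw [le_div_iff₀ hm]; linarith
    · rw [div_le_iff₀ hm]; linarith
    · field_simp
  have rp2 : ∀ s : ℝ, O₁ + s • d ∈ pc H₂ (-f₀) O₂ h' j' →
      ∃ t : ℝ, 1 ≤ t ∧ t ≤ 2 ∧ s = 1 + t * (m' / h' d) := by
    intro s hs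
    obtain ⟨_, c2, c3⟩ := (e2 s).mp hs
    refine ⟨(s - 1) * h' d / m', ?_, ?_, ?_⟩
    · rw [le_div_iff₀ hm']; linarith
    · rw [div_le_iff₀ hm']; linarith
    · field_simp; ring
  set s1 : ℝ := m / h d with hs1
  set u1 : ℝ := m' / h' d with hu1
  have hs10 : s1 ≠ 0 := div_ne_zero hm.ne' hhd
  have hu10 : u1 ≠ 0 := div_ne_zero hm'.ne' hhd'
  obtain ⟨σ1, hσ1, hσ1', q1⟩ := rp2 _ ((hiff _).mp (sc1 1 le_rfl one_le_two))
  obtain ⟨σ2, hσ2, hσ2', q2⟩ := rp2 _ ((hiff _).mp (sc1 2 one_le_two le_rfl))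
  obtain ⟨τ1, hτ1, hτ1', q3⟩ := rp1 _ ((hiff _).mpr (sc2 1 le_rfl one_le_two))
  obtain ⟨τ2, hτ2, hτ2', q4⟩ := rp1 _ ((hiff _).mpr (sc2 2 one_le_two le_rfl))
  have k3 : s1 = 1 / 3 := g8_num hs10 hσ1 hσ1' hσ2 hσ2' hτ1 hτ1' hτ2 hτ2' q1 q2 q3 q4
  have hs1pos : 0 < s1 := by rw [k3]; norm_num
  have hhdpos : 0 < h d := by
    rw [hs1] at hs1pos
    by_contra hc
    push Not at hc
    have : m / h d ≤ 0 := div_nonpos_of_nonneg_of_nonpos hm.le hc
    linarith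
  have hsppos : 0 < sp := by
    have hpos : 0 < sp * h d := lt_of_lt_of_le hm b2
    exact (pos_iff_pos_of_mul_pos hpos).mpr hhdpos
  obtain ⟨g, hg, hgd⟩ := hB2
  have k4 : h d = 1 / 2 := by
    apply le_antisymm (hB1 h hA.1)
    rw [← hgd]
    exact le_of_mul_le_mul_left (b1 g hg) hsppos
  have k5 : (1 / 2 : ℝ) ^ j = 1 / 3 := by
    rw [hjj, ← k3, hs1, k4]; ring
  have k6 : (2 : ℝ) ^ j = 3 := by
    rw [one_div, inv_pow, one_div] at k5
    exact inv_injective k5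
  have k7 : (2 : ℕ) ^ j = 3 := by exact_mod_cast k6
  rcases j with _ | j
  · norm_num at k7
  · rw [pow_succ] at k7
    omega

end Pool.Agent.K4H59.TL
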