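import Pool.Agent.K4H58.XK.Spec

open Finset

namespace Pool.Agent.K4H58.XK

/-- `isolated` from the bound `T` of `pairs_bound k k` -/
theorem isolated_of {k : ℕ} (hk : 1 ≤ k) (T : ℕ)
    (hT : ∀ {κ β : Type} [Fintype κ] [DecidableEq κ] [DecidableEq β]
      (A B : κ → Finset β), (∀ s, (A s).card ≤ k) → (∀ s, (B s).card ≤ k) →
      (∀ s, Disjoint (A s) (B s)) → (∀ s t, s ≠ t → ¬ Disjoint (A s) (B t)) → Fintype.card κ ≤ T)
    {ι α β : Type} [Fintype ι] [DecidableEq ι]
    [DecidableEq α] [DecidableEq β] (X : ι → Finset α) (Y : ι → Finset β) (hX : ∀ i, (X i).card = k)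
    (hY : ∀ i, (Y i).card = k) (hXY : ∀ i j, i ≠ j → (Disjoint (X i) (X j) ↔ ¬ Disjoint (Y i) (Y j)))
    (hC : ∀ C : Finset ι, (∀ i ∈ C, ∀ j ∈ C, i ≠ j → Disjoint (Y i) (Y j)) → C.card ≤ 2 * k)
    (hN : T * (4 * k ^ 4 + 2 * k ^ 2) + 1 ≤ Fintype.card ι) : ∃ i0, ∀ i, ¬ Disjoint (Y i) (Y i0) := by
  classical
  by_contra hcon
  push Not at hcon
  choose φ hφ using hcon
  -- the sets `Y i` are not empty
  have hne : ∀ i, ¬ Disjoint (Y i) (Y i) := by
    intro i h
    have h1 : Y i = ∅ := by simpa using h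
    have h2 := hY i
    rw [h1, card_empty] at h2
    omega
  -- few sets are disjoint from a given one
  have hD : ∀ i, (univ.filter (fun j => Disjoint (Y i) (Y j))).card ≤ 2 * k ^ 2 := by
    intro i
    have h1 : univ.filter (fun j => Disjoint (Y i) (Y j)) ⊆
        (X i).biUnion (fun x => univ.filter (fun j => x ∈ X j)) := by
      intro j hj
      have hj' : Disjoint (Y i) (Y j) := (mem_filter.1 hj).2
      have hij : i ≠ j := by
        rintro rfl
        exact hne _ hj'
      have h2 : ¬ Disjoint (X i) (X j) := fun h => (hXY i j hij).1 h hj'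
      obtain ⟨x, hx1, hx2⟩ := not_disjoint_iff.1 h2
      exact mem_biUnion.2 ⟨x, hx1, mem_filter.2 ⟨mem_univ _, hx2⟩⟩
    have h2 : ∀ x ∈ X i, (univ.filter (fun j => x ∈ X j)).card ≤ 2 * k := by
      intro x _
      apply hC
      intro a ha b hb hab
      have ha' : x ∈ X a := (mem_filter.1 ha).2
      have hb' : x ∈ X b := (mem_filter.1 hb).2
      by_contra h
      have := (hXY a b hab).2 h
      exact disjoint_left.1 this ha' hb'
    calc (univ.filter (fun j => Disjoint (Y i) (Y j))).card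
        ≤ ((X i).biUnion (fun x => univ.filter (fun j => x ∈ X j))).card := card_le_card h1
      _ ≤ (X i).card * (2 * k) := card_biUnion_le_card_mul _ _ _ h2
      _ = 2 * k ^ 2 := by rw [hX i]; ring
  -- conflicts
  let Cf : ι → ι → Prop := fun s t => Disjoint (Y s) (Y (φ t)) ∨ Disjoint (Y t) (Y (φ s))
  have hCf : ∀ s, (univ.filter (fun t => Cf s t)).card ≤ 4 * k ^ 4 + 2 * k ^ 2 := by
    intro s
    have h1 : univ.filter (fun t => Cf s t) ⊆
        ((univ.filter (fun v => Disjoint (Y s) (Y v))).biUnion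
          (fun v => univ.filter (fun t => Disjoint (Y v) (Y t)))) ∪
        univ.filter (fun t => Disjoint (Y (φ s)) (Y t)) := by
      intro t ht
      rcases (mem_filter.1 ht).2 with h | h
      · apply mem_union_left
        exact mem_biUnion.2 ⟨φ t, mem_filter.2 ⟨mem_univ _, h⟩, mem_filter.2 ⟨mem_univ _, hφ t⟩⟩
      · apply mem_union_right
        exact mem_filter.2 ⟨mem_univ _, h.symm⟩
    calc (univ.filter (fun t => Cf s t)).card
        ≤ _ := card_le_card h1
      _ ≤ _ := card_union_le _ _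
      _ ≤ (univ.filter (fun v => Disjoint (Y s) (Y v))).card * (2 * k ^ 2) + 2 * k ^ 2 :=
          Nat.add_le_add (card_biUnion_le_card_mul _ _ _ (fun v _ => hD v)) (hD _)
      _ ≤ 2 * k ^ 2 * (2 * k ^ 2) + 2 * k ^ 2 :=
          Nat.add_le_add_right (Nat.mul_le_mul_right _ (hD s)) _
      _ = 4 * k ^ 4 + 2 * k ^ 2 := by ring
  -- a largest family without conflicts
  obtain ⟨S, hS, hmax⟩ := exists_max_image
    ((univ : Finset (Finset ι)).filter (fun S => ∀ s ∈ S, ∀ t ∈ S, s ≠ t → ¬ Cf s t)) card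
    ⟨∅, by simp⟩
  have hS' : ∀ s ∈ S, ∀ t ∈ S, s ≠ t → ¬ Cf s t := (mem_filter.1 hS).2
  have hcard : S.card ≤ T := by
    have := hT (κ := {s // s ∈ S}) (β := β) (fun s => Y s.1) (fun s => Y (φ s.1))
      (fun s => (hY _).le) (fun s => (hY _).le) (fun s => (hφ s.1).symm)
      (fun s t hst h => hS' s.1 s.2 t.1 t.2 (fun h' => hst (Subtype.ext h')) (Or.inl h))
    simpa using this
  have hcov : (univ : Finset ι) ⊆ S.biUnion (fun s => univ.filter (fun t => Cf s t)) := by
    intro t _
    by_contra ht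
    have ht' : ∀ s ∈ S, ¬ Cf s t := by
      intro s hs hst
      exact ht (mem_biUnion.2 ⟨s, hs, mem_filter.2 ⟨mem_univ _, hst⟩⟩)
    have htS : t ∉ S := fun h => ht' t h (Or.inl (hφ t).symm)
    have h1 := hmax (insert t S) (mem_filter.2 ⟨mem_univ _, by
      intro a ha b hb hab
      rcases mem_insert.1 ha with rfl | ha'
      · rcases mem_insert.1 hb with rfl | hb'
        · exact absurd rfl hab
        · intro h
          exact ht' b hb' (Or.symm h)
      · rcases mem_insert.1 hb with rfl | hb'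
        · exact ht' a ha'
        · exact hS' a ha' b hb' hab⟩)
    rw [card_insert_of_notMem htS] at h1
    omega
  have h1 := card_le_card hcov
  have h2 := card_biUnion_le_card_mul S (fun s => univ.filter (fun t => Cf s t)) _ (fun s _ => hCf s)
  have h3 : S.card * (4 * k ^ 4 + 2 * k ^ 2) ≤ T * (4 * k ^ 4 + 2 * k ^ 2) :=
    Nat.mul_le_mul_right _ hcard
  have h4 : (univ : Finset ι).card = Fintype.card ι := card_univ
  omega

end Pool.Agent.K4H58.XK
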